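import Pool.Agent.helper42.CQ.SpecC

set_option autoImplicit false

namespace Pool.Agent.helper42.CQ

open Finset Pool.Agent.helper24.CG

theorem MNG (hSET : SET_stmt) (hRBR : RBR_stmt) : MNG_stmt := by
  intro m b s r ρ hm hb hs hr hrρ ha1 ha2 h3 h4 h5 h6 h7 ε hε
  have hlam : 0 ≤ (b : ℝ) * ((s : ℝ) - 1) ^ 2 / (2 * (m : ℝ)) := by positivity
  obtain ⟨δ, hδ, hF⟩ := hRBR ε (aa m b) r ρ ((b : ℝ) * ((s : ℝ) - 1) ^ 2 / (2 * (m : ℝ))) hε ha1 ha2 hr hrρ h5
    hlam h6 h7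
  obtain ⟨N₀, hN₀⟩ := hSET m b s ε δ hm hb hs hε hδ ha1 ha2
  refine ⟨N₀, fun N hN => ?_⟩
  by_contra hcon
  rw [not_le] at hcon
  obtain ⟨q, l, E, T, Ts, w, hTE, hTsE, hq1, hq2, hl, hlq, hE, hw, hW, hSU, hSU2, hA, hB⟩ := hN₀ N hN hcon
  have hA' := hA (aa m b) (1 - aa m b + ρ) ha1 ha2 (by linarith) (by linarith) h3 h4
  have hB' := hB 1 (1 / 8) (by norm_num) (by norm_num) (by norm_num) (by norm_num) (by norm_num) (by norm_num)
  have hsplit : ∑ e ∈ Ts, (1 - w e) + ∑ e ∈ E \ Ts, (1 - w e) = q * (q - 1) / 2 - ∑ e ∈ E, w e := by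
    have h1 : ∑ e ∈ E \ Ts, (1 - w e) + ∑ e ∈ Ts, (1 - w e) = ∑ e ∈ E, (1 - w e) :=
      Finset.sum_sdiff hTsE
    have h2 : ∑ e ∈ E, (1 - w e) = (E.card : ℝ) - ∑ e ∈ E, w e := by
      rw [Finset.sum_sub_distrib, Finset.sum_const, nsmul_eq_mul, mul_one]
    linarith
  have hST : ∑ e ∈ Ts, (1 - w e) ≤ (1 - aa m b) * (Ts.card : ℝ) := by
    have h1 : ∑ e ∈ Ts, (1 - w e) ≤ ∑ _e ∈ Ts, (1 - aa m b) :=
      Finset.sum_le_sum fun e he => by
        have := (hw e (hTsE he)).1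
        linarith
    rw [Finset.sum_const, nsmul_eq_mul] at h1
    linarith
  refine hF q l (∑ e ∈ E, w e) (∑ e ∈ Ts, (1 - w e)) (∑ e ∈ E \ Ts, (1 - w e)) (Ts.card : ℝ) (T.card : ℝ)
    (∑ e ∈ E \ T, (1 - w e)) hq1 hq2 hl hlq (Nat.cast_nonneg _) (Nat.cast_nonneg _) hW hST hSU hSU2 hsplit ?_ ?_
  · rcases hA' with h | h
    · left
      have h1 : ∑ e ∈ Ts, (1 - aa m b + ρ - max 0 (w e - aa m b)) = ∑ e ∈ Ts, (1 - w e) + ρ * (Ts.card : ℝ) := by
        have h2 : ∑ e ∈ Ts, (1 - aa m b + ρ - max 0 (w e - aa m b)) = ∑ e ∈ Ts, ((1 - w e) + ρ) :=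
          Finset.sum_congr rfl fun e he => by
            have := (hw e (hTsE he)).1
            rw [max_eq_right (by linarith)]
            ring
        rw [h2, Finset.sum_add_distrib, Finset.sum_const, nsmul_eq_mul]
        ring
      rw [h1] at h
      exact h
    · right
      exact h
  · rcases hB' with h | h
    · left
      have h1 : ∑ e ∈ T, ((1 : ℝ) / 8 - max 0 (w e - 1)) = (T.card : ℝ) / 8 := by
        have h2 : ∑ e ∈ T, ((1 : ℝ) / 8 - max 0 (w e - 1)) = ∑ _e ∈ T, ((1 : ℝ) / 8) :=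
          Finset.sum_congr rfl fun e he => by
            have := (hw e (hTE he)).2
            rw [max_eq_left (by linarith)]
            ring
        rw [h2, Finset.sum_const, nsmul_eq_mul]
        ring
      rw [h1] at h
      linarith
    · right
      have h1 : (1 : ℝ) - 1 / (2 * 1) = 1 - 1 / 2 := by norm_num
      rw [h1] at h
      exact h

end Pool.Agent.helper42.CQ
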